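import Mathlib

namespace Pool.Agent.Results.MP_75d27e_nt.NotInj

/-- `M` is the multiset of terms of an `m`-product sequence with first (least) term `n` and last
(greatest) term `s`. -/
def IsSeq (m n s : ℕ) (M : Multiset ℕ) : Prop :=
  n ∈ M ∧ s ∈ M ∧ (∀ a ∈ M, n ≤ a ∧ a ≤ s) ∧ (∀ a, M.count a ≤ m - 1) ∧ ∃ R : ℕ, M.prod = R ^ m

noncomputable def v (m i : ℕ) : ℕ → ZMod m := fun p => (i.factorization p : ZMod m)

noncomputable def L (m a b : ℕ) : Submodule (ZMod m) (ℕ → ZMod m) :=
  Submodule.span (ZMod m) (v m '' Set.Ico a b)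

def Rel (m n t : ℕ) : Prop := ∃ a : ZMod m, a ≠ 0 ∧ a • v m n ∈ L m (n + 1) t

lemma L_mono {m a b a' b' : ℕ} (h1 : a' ≤ a) (h2 : b ≤ b') : L m a b ≤ L m a' b' :=
  Submodule.span_mono (Set.image_mono (Set.Ico_subset_Ico h1 h2))

lemma v_mem {m a b i : ℕ} (h1 : a ≤ i) (h2 : i < b) : v m i ∈ L m a b :=
  Submodule.subset_span ⟨i, ⟨h1, h2⟩, rfl⟩

lemma L_bot {m a b : ℕ} (h : b ≤ a) : L m a b = ⊥ := by
  simp [L, Set.Ico_eq_empty_of_le h]

lemma L_right {m a b : ℕ} (h : a ≤ b) {x} (hx : x ∈ L m a (b + 1)) :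
    ∃ c : ZMod m, ∃ w ∈ L m a b, x = c • v m b + w := by
  have : Set.Ico a (b + 1) = insert b (Set.Ico a b) := by ext i; simp; omega
  rw [L, this, Set.image_insert_eq, Submodule.mem_span_insert] at hx
  exact hx

lemma L_left {m a b : ℕ} (h : a < b) {x} (hx : x ∈ L m a b) :
    ∃ c : ZMod m, ∃ w ∈ L m (a + 1) b, x = c • v m a + w := by
  have : Set.Ico a b = insert a (Set.Ico (a + 1) b) := by ext i; simp; omega
  rw [L, this, Set.image_insert_eq, Submodule.mem_span_insert] at hx
  exact hx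

lemma v_mul {m a b : ℕ} (ha : a ≠ 0) (hb : b ≠ 0) : v m (a * b) = v m a + v m b := by
  funext p; simp [v, Nat.factorization_mul ha hb]

lemma v_prod {m : ℕ} (M : Multiset ℕ) (h : ∀ a ∈ M, a ≠ 0) :
    v m M.prod = (M.map (v m)).sum := by
  induction M using Multiset.induction_on with
  | empty => funext p; simp [v]
  | cons a M ih =>
    have h1 : ∀ a ∈ M, a ≠ 0 := fun b hb => h b (Multiset.mem_cons_of_mem hb)
    have h2 : M.prod ≠ 0 := Multiset.prod_ne_zero (fun h0 => h1 0 h0 rfl)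
    rw [Multiset.prod_cons, Multiset.map_cons, Multiset.sum_cons,
      v_mul (h a (Multiset.mem_cons_self _ _)) h2, ih h1]

lemma pow_of_v {m N : ℕ} (hN : N ≠ 0) (h : v m N = 0) : ∃ R, N = R ^ m := by
  refine ⟨∏ p ∈ N.factorization.support, p ^ (N.factorization p / m), ?_⟩
  rw [← Finset.prod_pow]
  conv_lhs => rw [← Nat.prod_factorization_pow_eq_self hN]
  refine Finset.prod_congr rfl fun p _ => ?_
  have : m ∣ N.factorization p := (ZMod.natCast_eq_zero_iff _ _).1 (congrFun h p)
  rw [← pow_mul, Nat.div_mul_cancel this]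

lemma fwd {m n t : ℕ} (hm : 2 ≤ m) (hn : 1 ≤ n) {M} (h : IsSeq m n t M) : Rel m n (t + 1) := by
  obtain ⟨h1, -, h3, h4, R, hR⟩ := h
  have h0 : v m M.prod = 0 := by
    rw [hR]; funext p; simp [v, Nat.factorization_pow]
  rw [v_prod M (fun a ha => by have := h3 a ha; omega)] at h0
  refine ⟨(M.count n : ZMod m), ?_, ?_⟩
  · rw [Ne, ZMod.natCast_eq_zero_iff]
    have := h4 n
    have h5 : 0 < M.count n := Multiset.count_pos.2 h1
    exact Nat.not_dvd_of_pos_of_lt h5 (by omega)
  · have e : M = Multiset.replicate (M.count n) n + M.filter (fun a => ¬ a = n) := by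
      rw [← Multiset.filter_eq', Multiset.filter_add_not]
    have hs : ((M.filter (fun a => ¬ a = n)).map (v m)).sum ∈ L m (n + 1) (t + 1) := by
      refine multiset_sum_mem _ fun x hx => ?_
      obtain ⟨a, ha, rfl⟩ := Multiset.mem_map.1 hx
      rw [Multiset.mem_filter] at ha
      have := h3 a ha.1
      exact v_mem (by omega) (by omega)
    rw [e, Multiset.map_add, Multiset.sum_add, Multiset.map_replicate,
      Multiset.sum_replicate] at h0
    rw [Nat.cast_smul_eq_nsmul, eq_neg_of_add_eq_zero_left h0]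
    exact neg_mem hs

lemma bwd {m n s : ℕ} (hm : 2 ≤ m) (hn : 1 ≤ n) (h : Rel m n (s + 1)) (hns : n ≤ s) :
    ∃ t ≤ s, ∃ M, IsSeq m n t M := by
  have : NeZero m := ⟨by omega⟩
  obtain ⟨a, ha, hL⟩ := h
  rw [L, ← Finset.coe_Ico, Submodule.mem_span_image_finset_iff_exists_fun'] at hL
  obtain ⟨c, hc⟩ := hL
  set M : Multiset ℕ := Multiset.replicate a.val n +
    ∑ i ∈ Finset.Ico (n + 1) (s + 1), Multiset.replicate (-c i).val i with hM
  have hmem : ∀ x ∈ M, n ≤ x ∧ x ≤ s := by
    intro x hx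
    rw [hM, Multiset.mem_add, Multiset.mem_sum] at hx
    rcases hx with hx | ⟨i, hi, hx⟩
    · have := Multiset.eq_of_mem_replicate hx; omega
    · have := Multiset.eq_of_mem_replicate hx
      rw [Finset.mem_Ico] at hi; omega
  have hnM : n ∈ M := by
    rw [hM, Multiset.mem_add]; left
    exact Multiset.mem_replicate.2 ⟨by simpa using ha, rfl⟩
  obtain ⟨t, ht, hmax⟩ := Finset.exists_max_image M.toFinset id ⟨n, by simpa using hnM⟩
  rw [Multiset.mem_toFinset] at ht
  refine ⟨t, (hmem t ht).2, M, hnM, ht,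
    fun x hx => ⟨(hmem x hx).1, hmax x (by simpa using hx)⟩, ?_, ?_⟩
  · intro x
    rw [hM, Multiset.count_add, Multiset.count_sum']
    simp only [Multiset.count_replicate, Finset.sum_ite_eq', Finset.mem_Ico]
    have h1 := ZMod.val_lt a
    have h2 := ZMod.val_lt (-c x)
    split_ifs <;> omega
  · have hne : ∀ x ∈ M, x ≠ 0 := fun x hx => by have := hmem x hx; omega
    refine pow_of_v (Multiset.prod_ne_zero fun h0 => hne 0 h0 rfl) ?_
    have key : ∀ (T : Finset ℕ) (F : ℕ → Multiset ℕ),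
        ((∑ i ∈ T, F i).map (v m)).sum = ∑ i ∈ T, ((F i).map (v m)).sum := by
      intro T F
      induction T using Finset.induction_on with
      | empty => simp
      | insert x T hx ih =>
        rw [Finset.sum_insert hx, Finset.sum_insert hx, Multiset.map_add, Multiset.sum_add, ih]
    rw [v_prod M hne, hM, Multiset.map_add, Multiset.sum_add, key]
    simp only [Multiset.map_replicate, Multiset.sum_replicate, ← Nat.cast_smul_eq_nsmul (ZMod m),
      ZMod.natCast_zmod_val, neg_smul, Finset.sum_neg_distrib, hc, add_neg_cancel]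

lemma least {m n s : ℕ} (hm : 2 ≤ m) (hn : 1 ≤ n) (hns : n ≤ s) (h : Rel m n (s + 1))
    (h' : n < s → ¬ Rel m n s) : IsLeast {t | ∃ M, IsSeq m n t M} s := by
  have low : ∀ t ∈ {t | ∃ M, IsSeq m n t M}, s ≤ t := by
    rintro t ⟨M, hM⟩
    by_contra hlt
    have hnt : n ≤ t := (hM.2.2.1 t hM.2.1).1
    obtain ⟨a, ha, hL⟩ := fwd hm hn hM
    exact h' (by omega) ⟨a, ha, L_mono le_rfl (by omega) hL⟩
  obtain ⟨t, ht, M, hM⟩ := bwd hm hn h hns
  have : t = s := le_antisymm ht (low t ⟨M, hM⟩)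
  exact ⟨⟨M, this ▸ hM⟩, low⟩

def Part (m s : ℕ) : Prop :=
  ∃ n, 1 ≤ n ∧ n ≤ s ∧ Rel m n (s + 1) ∧ v m n ∉ L m (n + 1) (s + 1)

lemma exists_part {m : ℕ} (hm : 2 ≤ m) (hc : ¬ m.Prime) : ∃ s, Part m s := by
  obtain ⟨d, e, hd, he, hde⟩ := (Nat.not_prime_iff_exists_mul_eq hm).1 hc
  have hd0 : 0 < d := Nat.pos_of_ne_zero (by rintro rfl; omega)
  have he0 : 0 < e := Nat.pos_of_ne_zero (by rintro rfl; omega)
  refine ⟨2 ^ d, 2 ^ d, Nat.one_le_two_pow, le_rfl, ⟨(e : ZMod m), ?_, ?_⟩, ?_⟩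
  · rw [Ne, ZMod.natCast_eq_zero_iff]; exact Nat.not_dvd_of_pos_of_lt he0 he
  · have : (e : ZMod m) • v m (2 ^ d) = 0 := by
      funext p
      have h0 : ((e : ZMod m) * d) = 0 := by
        rw [← Nat.cast_mul, mul_comm, hde]; simp
      simp [v, Nat.factorization_pow, ← mul_assoc, h0]
    rw [this]; exact zero_mem _
  · rw [L_bot le_rfl, Submodule.mem_bot]
    intro h
    have := congrFun h 2
    simp only [v, Nat.Prime.factorization_pow Nat.prime_two, Finsupp.single_eq_same,
      Pi.zero_apply] at this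
    exact Nat.not_dvd_of_pos_of_lt hd0 hd ((ZMod.natCast_eq_zero_iff _ _).1 this)

lemma top {m s : ℕ} (hm : 2 ≤ m) (hmin : ∀ t < s, ¬ Part m t) (P : ZMod m → Prop)
    (hP : ∀ c, P c → c ≠ 0) (hs : 1 ≤ s) (hex : ∃ c, P c ∧ c • v m s ∈ L m 1 s) :
    ∃ A, 1 ≤ A ∧ A ≤ s ∧ (∃ c, P c ∧ c • v m s ∈ L m A s) ∧
      (A < s → ¬ ∃ c, P c ∧ c • v m s ∈ L m (A + 1) s) ∧
      IsLeast {t | ∃ M, IsSeq m A t M} s := by
  classical
  let Q : ℕ → Prop := fun A => ∃ c, P c ∧ c • v m s ∈ L m A s
  have h1 : 1 ≤ Nat.findGreatest Q s := Nat.le_findGreatest hs hex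
  have h2 : Nat.findGreatest Q s ≤ s := Nat.findGreatest_le s
  have h3 : Q (Nat.findGreatest Q s) := Nat.findGreatest_spec hs hex
  have h4 : Nat.findGreatest Q s < s → ¬ Q (Nat.findGreatest Q s + 1) := fun h =>
    Nat.findGreatest_is_greatest (Nat.lt_succ_self _) h
  generalize Nat.findGreatest Q s = A at h1 h2 h3 h4
  refine ⟨A, h1, h2, h3, h4, ?_⟩
  obtain ⟨c, hc, hcL⟩ := h3
  rcases h2.lt_or_eq with hlt | rfl
  · obtain ⟨a, w, hw, e⟩ := L_left hlt hcL
    have hnot : a • v m A ∉ L m (A + 1) s := fun h => h4 hlt ⟨c, hc, e ▸ add_mem h hw⟩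
    refine least hm h1 h2 ⟨a, fun h => hnot (by rw [h, zero_smul]; exact zero_mem _), ?_⟩ ?_
    · rw [eq_sub_of_add_eq e.symm]
      exact sub_mem (Submodule.smul_mem _ _ (v_mem (by omega) (by omega)))
        (L_mono le_rfl (by omega) hw)
    · intro _ hR
      have e2 : s - 1 + 1 = s := by omega
      exact hmin (s - 1) (by omega) ⟨A, h1, by omega, by rwa [e2], by
        rw [e2]; exact fun h => hnot (Submodule.smul_mem _ _ h)⟩
  · exact least hm h1 h2 ⟨c, hP c hc, by
      rw [L_bot le_rfl] at hcL; rw [L_bot le_rfl]; exact hcL⟩ (fun h => absurd h (lt_irrefl _))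

/-- For every composite `m` there are `n₁ ≠ n₂` with `g_m(n₁) = g_m(n₂) = s`. -/
theorem result (m : ℕ) (hm : 2 ≤ m) (hc : ¬ m.Prime) :
    ∃ n₁ n₂ s : ℕ, n₁ ≠ n₂ ∧ IsLeast {t | ∃ M, IsSeq m n₁ t M} s ∧
      IsLeast {t | ∃ M, IsSeq m n₂ t M} s := by
  classical
  have : NeZero m := ⟨by omega⟩
  have : Fact (1 < m) := ⟨by omega⟩
  have hex := exists_part hm hc
  obtain ⟨s, ⟨n, hn, hns, hR, hnot⟩, hmin⟩ : ∃ s, Part m s ∧ ∀ t < s, ¬ Part m t :=
    ⟨Nat.find hex, Nat.find_spec hex, fun t ht => Nat.find_min hex ht⟩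
  have hfresh : n < s → ¬ Rel m n s := by
    intro hlt hR'
    have e2 : s - 1 + 1 = s := by omega
    exact hmin (s - 1) (by omega) ⟨n, hn, by omega, by rwa [e2], by
      rw [e2]; exact fun h => hnot (L_mono le_rfl (by omega) h)⟩
  have hn_least := least hm hn hns hR hfresh
  have hs1 : v m s ∈ L m 1 s := by
    by_cases hp : s.Prime
    · exfalso
      have hz : ∀ a, 1 ≤ a → ∀ x ∈ L m a s, x s = 0 := by
        intro a ha x hx
        induction hx using Submodule.span_induction with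
        | mem x hx =>
          obtain ⟨i, hi, rfl⟩ := hx
          simp [v, Nat.factorization_eq_zero_of_lt hi.2]
        | zero => rfl
        | add x y _ _ h1 h2 => simp [h1, h2]
        | smul c x _ h1 => simp [h1]
      have hv : v m s s = 1 := by simp [v, hp.factorization_self]
      obtain ⟨a, ha, hL⟩ := hR
      rcases hns.lt_or_eq with hlt | rfl
      · obtain ⟨c, w, hw, e⟩ := L_right (by omega) hL
        have h1 := congrFun e s
        have h2 : v m n s = 0 := hz 1 le_rfl _ (v_mem hn hlt)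
        simp [h2, hv, hz _ (by omega) w hw] at h1
        exact hfresh hlt ⟨a, ha, by rw [e, ← h1, zero_smul, zero_add]; exact hw⟩
      · rw [L_bot le_rfl, Submodule.mem_bot] at hL
        have h1 := congrFun hL n
        simp [hv] at h1
        exact ha h1
    · rcases (show s = 1 ∨ 2 ≤ s by omega) with rfl | h2
      · have : v m 1 = 0 := by funext p; simp [v]
        rw [this]; exact zero_mem _
      · obtain ⟨d, e, hd, he, hde⟩ := (Nat.not_prime_iff_exists_mul_eq h2).1 hp
        have hd0 : d ≠ 0 := by rintro rfl; omega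
        have he0 : e ≠ 0 := by rintro rfl; omega
        have : v m s = v m d + v m e := by rw [← v_mul hd0 he0, hde]
        rw [this]
        exact add_mem (v_mem (by omega) hd) (v_mem (by omega) he)
  obtain ⟨A, hA1, hA2, -, hA4, hA5⟩ := top hm hmin (fun c => c ≠ 0) (fun _ h => h) (by omega)
    ⟨1, one_ne_zero, by simpa using hs1⟩
  obtain ⟨B, hB1, hB2, ⟨c, rfl, hB3⟩, -, hB5⟩ := top hm hmin (fun c => c = 1)
    (fun _ h => h ▸ one_ne_zero) (by omega) ⟨1, rfl, by simpa using hs1⟩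
  by_cases h1 : n = A
  · by_cases h2 : n = B
    · exfalso
      subst h1
      subst h2
      rw [one_smul] at hB3
      rcases hns.lt_or_eq with hlt | rfl
      · obtain ⟨a, w, hw, e⟩ := L_left hlt hB3
        by_cases hu : IsUnit a
        · obtain ⟨u, rfl⟩ := hu
          apply hnot
          have : v m n = (↑u⁻¹ : ZMod m) • (v m s - w) := by
            rw [e, add_sub_cancel_right, smul_smul]; simp
          rw [this]
          exact Submodule.smul_mem _ _ (sub_mem (v_mem (by omega) (by omega))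
            (L_mono le_rfl (by omega) hw))
        · have : ∃ c : ZMod m, c ≠ 0 ∧ c * a = 0 := by
            by_contra hcon
            push Not at hcon
            apply hu
            have hinj : Function.Injective (fun c : ZMod m => c * a) := by
              intro x y hxy
              by_contra hne
              exact hcon (x - y) (sub_ne_zero.2 hne) (by simpa [sub_mul, sub_eq_zero] using hxy)
            obtain ⟨x, hx⟩ := (Finite.injective_iff_surjective.1 hinj) 1
            exact IsUnit.of_mul_eq_one_right x hx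
          obtain ⟨c, hc0, hca⟩ := this
          exact hA4 hlt ⟨c, hc0, by
            rw [e, smul_add, smul_smul, hca, zero_smul, zero_add]
            exact Submodule.smul_mem _ _ hw⟩
      · rw [L_bot le_rfl] at hB3 hnot
        exact hnot hB3
    · exact ⟨n, B, s, h2, hn_least, hB5⟩
  · exact ⟨n, A, s, h1, hn_least, hA5⟩

end Pool.Agent.Results.MP_75d27e_nt.NotInj
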